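import Pool.Agent.Lib.MP_aca35e_co.Final2

/-!
# MP_aca35e_co, Q1: the answer is no

No affine rank-3 Tits arrangement (irreducible or not) has its dual points on the real zero set of an
irreducible homogeneous polynomial, whatever the degree. The definitions of the statement are in
`Pool/Agent/Lib/MP_aca35e_co/Stmt.lean`.
-/

set_option autoImplicit false

namespace Pool.Agent.Results.MP_aca35e_co.NoIrreducibleCurve

open Pool.ACA

/-- Let `(A, T)` be an affine rank-3 Tits arrangement and let `P` be an irreducible homogeneous real
polynomial in three variables. Then `A*` is not contained in `V(P)`. -/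
theorem result (T : Set V3) (A : Set (Submodule ℝ V3)) (hT : IsTits T A) (haff : IsAffine T)
    (P : MvPolynomial (Fin 3) ℝ) (n : ℕ) (hP : P.IsHomogeneous n) (hirr : Irreducible P) :
    ¬ OnCurve A P :=
  fun hc => no_curve T A hT haff P n hP hirr hc

end Pool.Agent.Results.MP_aca35e_co.NoIrreducibleCurve
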